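import Pool.Agent.Helper53.PT.GoalsA

/-!
# Packet PT-SER: termwise differentiation of the four entire series
-/

namespace Pool.Agent.Helper69.PT

open Pool.Agent.Helper53.PT Set Filter Topology

/-- Coefficients of an entire function. -/
def Ent (c : ℕ → ℝ) : Prop := ∀ r : ℝ, 0 ≤ r → Summable fun j => |c j| * r ^ j

/-- Coefficients of the derivative. -/
def dc (c : ℕ → ℝ) (j : ℕ) : ℝ := ((j : ℝ) + 1) * c (j + 1)

theorem two_pow_ge (j : ℕ) : (j : ℝ) + 1 ≤ 2 ^ j := by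
  induction j with
  | zero => norm_num
  | succ j ih =>
    have : (1 : ℝ) ≤ 2 ^ j := one_le_pow₀ (by norm_num)
    push_cast
    rw [pow_succ]
    linarith

theorem Ent.dc {c : ℕ → ℝ} (h : Ent c) : Ent (dc c) := by
  intro r hr
  have h1 := (summable_nat_add_iff 1).2 (h (2 * (r + 1)) (by positivity))
  refine Summable.of_nonneg_of_le (fun j => by positivity) (fun j => ?_) h1
  have h2 : |PT.dc c j| = ((j : ℝ) + 1) * |c (j + 1)| := by
    unfold PT.dc
    rw [abs_mul, abs_of_nonneg (by positivity : (0 : ℝ) ≤ (j : ℝ) + 1)]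
  rw [h2]
  have h3 := two_pow_ge j
  have h4 : r ^ j ≤ (r + 1) ^ (j + 1) := by
    calc r ^ j ≤ (r + 1) ^ j := pow_le_pow_left₀ hr (by linarith) j
      _ ≤ (r + 1) ^ (j + 1) := pow_le_pow_right₀ (by linarith) (Nat.le_succ j)
  have h5 : ((j : ℝ) + 1) * r ^ j ≤ (2 * (r + 1)) ^ (j + 1) := by
    rw [mul_pow]
    refine mul_le_mul (h3.trans ?_) h4 (by positivity) (by positivity)
    exact pow_le_pow_right₀ (by norm_num) (Nat.le_succ j)
  calc ((j : ℝ) + 1) * |c (j + 1)| * r ^ j = |c (j + 1)| * (((j : ℝ) + 1) * r ^ j) := by ring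
    _ ≤ |c (j + 1)| * (2 * (r + 1)) ^ (j + 1) := mul_le_mul_of_nonneg_left h5 (abs_nonneg _)

theorem Ent.smul {c : ℕ → ℝ} (h : Ent c) (a : ℝ) : Ent fun j => a * c j := by
  intro r hr
  have := (h r hr).mul_left |a|
  refine this.congr fun j => ?_
  rw [abs_mul]; ring

theorem Ent.congr {c d : ℕ → ℝ} (h : Ent c) (hcd : ∀ j, d j = c j) : Ent d := by
  have : d = c := funext hcd
  rw [this]; exact h

theorem Ent.hasDerivAt {c : ℕ → ℝ} (h : Ent c) (x : ℝ) :
    HasDerivAt (fun x => ∑' j : ℕ, c j * x ^ j) (∑' j : ℕ, PT.dc c j * x ^ j) x := by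
  set R : ℝ := |x| + 1 with hR
  have hR0 : 0 < R := by positivity
  have h1 : HasDerivAt (fun z => ∑' j : ℕ, c j * z ^ j) (∑' j : ℕ, c j * ((j : ℝ) * x ^ (j - 1))) x := by
    refine hasDerivAt_tsum_of_isPreconnected
      (u := fun j : ℕ => |c j| * (2 * (R + 1)) ^ j) (t := Metric.ball (0 : ℝ) R) (y₀ := 0)
      (g := fun (j : ℕ) z => c j * z ^ j) (g' := fun (j : ℕ) z => c j * ((j : ℝ) * z ^ (j - 1)))
      (h _ (by positivity)) Metric.isOpen_ball (convex_ball (0 : ℝ) R).isPreconnected ?_ ?_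
      (Metric.mem_ball_self hR0) ?_ ?_
    · intro j y _
      exact (hasDerivAt_pow j y).const_mul (c j)
    · intro j y hy
      rw [Metric.mem_ball, dist_zero_right, Real.norm_eq_abs] at hy
      rw [Real.norm_eq_abs, abs_mul]
      refine mul_le_mul_of_nonneg_left ?_ (abs_nonneg _)
      rw [abs_mul, abs_pow, abs_of_nonneg (Nat.cast_nonneg j), mul_pow]
      have h3 := two_pow_ge j
      refine mul_le_mul (by linarith) ?_ (by positivity) (by positivity)
      calc |y| ^ (j - 1) ≤ (R + 1) ^ (j - 1) :=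
            pow_le_pow_left₀ (abs_nonneg _) (by linarith) _
        _ ≤ (R + 1) ^ j := pow_le_pow_right₀ (by linarith) (Nat.sub_le _ _)
    · refine summable_of_ne_finset_zero (s := {0}) fun j hj => ?_
      rw [Finset.mem_singleton] at hj
      simp [hj]
    · rw [Metric.mem_ball, dist_zero_right, Real.norm_eq_abs]
      linarith
  have h2 : ∑' j : ℕ, c j * ((j : ℝ) * x ^ (j - 1)) = ∑' j : ℕ, PT.dc c j * x ^ j := by
    have hs : Summable fun j : ℕ => PT.dc c j * x ^ j := by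
      refine Summable.of_norm_bounded (h.dc |x| (abs_nonneg x)) fun j => ?_
      rw [Real.norm_eq_abs, abs_mul, abs_pow]
    have hs2 : Summable fun j : ℕ => c j * ((j : ℝ) * x ^ (j - 1)) := by
      rw [← summable_nat_add_iff 1]
      refine hs.congr fun j => ?_
      unfold PT.dc
      push_cast
      ring
    rw [hs2.tsum_eq_zero_add]
    simp only [Nat.cast_zero, zero_mul, mul_zero, zero_add]
    refine tsum_congr fun j => ?_
    unfold PT.dc
    push_cast
    ring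
  rw [← h2]
  exact h1

/-- the coefficients of `f0` -/
noncomputable def c0 (θ : ℝ) (j : ℕ) : ℝ := (-1) ^ j * (mo θ j / (2 * j).factorial)
/-- the coefficients of `f1` -/
noncomputable def c1 (θ : ℝ) (j : ℕ) : ℝ := (-1) ^ j * (mo θ (j + 1) / (2 * j + 1).factorial)
/-- the coefficients of `f2` -/
noncomputable def c2 (θ : ℝ) (j : ℕ) : ℝ :=
  (-1) ^ (j + 1) * (((j : ℝ) + 1) * mo θ (j + 2) / (2 * j + 3).factorial)
/-- the coefficients of `f3` -/
noncomputable def c3 (θ : ℝ) (j : ℕ) : ℝ :=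
  (-1) ^ j * (((j : ℝ) + 1) * ((j : ℝ) + 2) * mo θ (j + 3) / (2 * j + 5).factorial)

theorem fac2 (j : ℕ) : ((2 * (j + 1)).factorial : ℝ) = 2 * (j + 1) * (2 * j + 1).factorial := by
  have : (2 * (j + 1)).factorial = 2 * (j + 1) * (2 * j + 1).factorial := by
    rw [show 2 * (j + 1) = (2 * j + 1) + 1 by ring, Nat.factorial_succ]
  rw [this]
  push_cast
  ring

theorem dc0 (θ : ℝ) (j : ℕ) : dc (c0 θ) j = -(1 / 2) * c1 θ j := by
  unfold dc c0 c1
  rw [fac2]
  have h1 : ((2 * j + 1).factorial : ℝ) ≠ 0 := by positivity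
  have h2 : (j : ℝ) + 1 ≠ 0 := by positivity
  field_simp
  ring

theorem dc1 (θ : ℝ) (j : ℕ) : dc (c1 θ) j = c2 θ j := by
  unfold dc c1 c2
  rw [show 2 * (j + 1) + 1 = 2 * j + 3 by ring, show j + 1 + 1 = j + 2 by ring]
  ring

theorem dc2 (θ : ℝ) (j : ℕ) : dc (c2 θ) j = c3 θ j := by
  unfold dc c2 c3
  rw [show 2 * (j + 1) + 3 = 2 * j + 5 by ring, show j + 1 + 2 = j + 3 by ring,
    show j + 1 + 1 = j + 2 by ring]
  push_cast
  rw [pow_add]
  ring

theorem mo_le (hMO : GMO) {θ : ℝ} (h0 : 0 < θ) (h1 : θ < 1 / 2) (j : ℕ) :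
    mo θ j * (2 ^ j * j.factorial) ≤ (2 * j).factorial := by
  obtain ⟨hA, hB, hC⟩ := hMO
  obtain ⟨hm0, hm1, hpos⟩ := hA θ h0 (by linarith)
  obtain ⟨hn0, hn1, hpos'⟩ := hA (1 / 2) (by norm_num) (by norm_num)
  induction j with
  | zero => simp [hm0]
  | succ j ih =>
    have h2 := hB θ (1 / 2) h0 h1.le le_rfl j
    rw [hC j, mul_div_assoc, div_self (hpos' j).ne', mul_one, div_le_iff₀ (hpos j)] at h2
    have h3 : ((2 * (j + 1)).factorial : ℝ) = 2 * (j + 1) * ((2 * j + 1) * (2 * j).factorial) := by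
      rw [fac2, Nat.factorial_succ]
      push_cast
      ring
    rw [h3, Nat.factorial_succ, pow_succ]
    push_cast
    calc mo θ (j + 1) * (2 ^ j * 2 * (((j : ℝ) + 1) * (j.factorial : ℝ)))
        ≤ ((2 * (j : ℝ) + 1) * mo θ j) * (2 ^ j * 2 * (((j : ℝ) + 1) * (j.factorial : ℝ))) :=
          mul_le_mul_of_nonneg_right h2 (by positivity)
      _ = 2 * (j + 1) * ((2 * j + 1) * (mo θ j * (2 ^ j * j.factorial))) := by ring
      _ ≤ 2 * (j + 1) * ((2 * j + 1) * (2 * j).factorial) := by gcongr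

theorem ent0 (hMO : GMO) {θ : ℝ} (h0 : 0 < θ) (h1 : θ < 1 / 2) : Ent (c0 θ) := by
  intro r hr
  refine Summable.of_nonneg_of_le (fun j => by positivity) (fun j => ?_)
    (Real.summable_pow_div_factorial r)
  have hpos := (hMO.1 θ h0 (by linarith)).2.2 j
  have h2 := mo_le hMO h0 h1 j
  have h3 : |c0 θ j| = mo θ j / (2 * j).factorial := by
    unfold c0
    rw [abs_mul, abs_pow, abs_neg, abs_one, one_pow, one_mul, abs_of_pos (by positivity)]
  rw [h3]
  have h4 : mo θ j / (2 * j).factorial ≤ 1 / j.factorial := by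
    rw [div_le_div_iff₀ (by positivity) (by positivity), one_mul]
    refine le_trans ?_ h2
    refine mul_le_mul_of_nonneg_left ?_ hpos.le
    have : (1 : ℝ) ≤ 2 ^ j := one_le_pow₀ (by norm_num)
    nlinarith [(Nat.cast_pos.2 (Nat.factorial_pos j) : (0 : ℝ) < (j.factorial : ℝ))]
  calc mo θ j / (2 * j).factorial * r ^ j ≤ 1 / j.factorial * r ^ j :=
        mul_le_mul_of_nonneg_right h4 (by positivity)
    _ = r ^ j / j.factorial := by ring

theorem f0_eq (θ : ℝ) : f0 θ = fun x => ∑' j, c0 θ j * x ^ j := rfl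
theorem f1_eq (θ : ℝ) : f1 θ = fun x => ∑' j, c1 θ j * x ^ j := rfl
theorem f2_eq (θ : ℝ) : f2 θ = fun x => ∑' j, c2 θ j * x ^ j := rfl
theorem f3_eq (θ : ℝ) : f3 θ = fun x => ∑' j, c3 θ j * x ^ j := rfl

theorem at_zero (c : ℕ → ℝ) : ∑' j : ℕ, c j * (0 : ℝ) ^ j = c 0 := by
  rw [tsum_eq_single 0]
  · simp
  · intro j hj
    simp [hj]

theorem gSER : GSER := by
  intro hMO θ h0 h1
  have e0 := ent0 hMO h0 h1
  have e1 : Ent (c1 θ) := by
    refine (e0.dc.smul (-2)).congr fun j => ?_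
    rw [dc0]; ring
  have e2 : Ent (c2 θ) := e1.dc.congr fun j => (dc1 θ j).symm
  have e3 : Ent (c3 θ) := e2.dc.congr fun j => (dc2 θ j).symm
  refine ⟨fun x => ?_, fun x => ?_, fun x => ?_, ?_, ?_, ?_, ?_, ?_⟩
  · have h := e0.hasDerivAt x
    rw [f0_eq, f1_eq]
    have h2 : ∑' j, dc (c0 θ) j * x ^ j = -(∑' j, c1 θ j * x ^ j) / 2 := by
      have h3 : ∀ j, dc (c0 θ) j * x ^ j = -(1 / 2) * (c1 θ j * x ^ j) := fun j => by
        rw [dc0]; ring
      rw [tsum_congr h3, tsum_mul_left]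
      ring
    rw [h2] at h
    exact h
  · have h := e1.hasDerivAt x
    rw [f1_eq, f2_eq]
    have h2 : ∑' j, dc (c1 θ) j * x ^ j = ∑' j, c2 θ j * x ^ j :=
      tsum_congr fun j => by rw [dc1]
    rw [h2] at h
    exact h
  · have h := e2.hasDerivAt x
    rw [f2_eq, f3_eq]
    have h2 : ∑' j, dc (c2 θ) j * x ^ j = ∑' j, c3 θ j * x ^ j :=
      tsum_congr fun j => by rw [dc2]
    rw [h2] at h
    exact h
  · rw [f3_eq]
    exact continuous_iff_continuousAt.2 fun x => (e3.hasDerivAt x).continuousAt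
  · rw [f0_eq]
    simp only [at_zero]
    simp [c0, (hMO.1 θ h0 (by linarith)).1]
  · rw [f1_eq]
    simp only [at_zero]
    simp [c1, (hMO.1 θ h0 (by linarith)).2.1]
  · rw [f2_eq]
    simp only [at_zero]
    simp only [c2, Nat.factorial]
    norm_num
    ring
  · rw [f3_eq]
    simp only [at_zero]
    simp only [c3, Nat.factorial]
    norm_num
    ring

end Pool.Agent.Helper69.PT
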