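import Pool.Agent.Helper53.PT.GoalsC

set_option autoImplicit false

namespace Pool.Agent.Helper69.PT

open Pool.Agent.Helper53.PT

lemma vR_mono {a b : ℕ} (h : a ≤ b) : vR a ≤ vR b := by
  unfold vR
  have : (a : ℝ) ≤ b := by exact_mod_cast h
  gcongr

lemma mn_eq (a b : ℕ) : N.mn a b = min a b := by
  unfold N.mn
  by_cases h : a ≤ b
  · have : Nat.ble a b = true := Nat.ble_eq.mpr h
    rw [this, min_eq_left h]; rfl
  · have : Nat.ble a b = false := by
      rw [Bool.eq_false_iff]; intro h'; exact h (Nat.ble_eq.mp h')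
    rw [this, min_eq_right (by omega)]; rfl

/-- suffix maxima on all of `[xR k, ∞)` -/
lemma suf (F : ℝ → ℝ) (f : ℕ → ℕ) (T n : ℕ)
    (hT : ∀ k < n, N.fld T k = max (N.fld T (k + 1)) (f k))
    (hcell : ∀ k < n, ∀ y, xR k ≤ y → y ≤ xR (k + 1) → F y ≤ vR (f k))
    (htop : ∀ y, xR n ≤ y → F y ≤ vR (N.fld T n)) :
    ∀ k ≤ n, ∀ y, xR k ≤ y → F y ≤ vR (N.fld T k) := by
  intro k hk
  obtain ⟨d, hd⟩ : ∃ d, d = n - k := ⟨_, rfl⟩
  induction d generalizing k with
  | zero =>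
    have : k = n := by omega
    subst this; exact htop
  | succ d ih =>
    have hkn : k < n := by omega
    intro y hy
    have hm := hT k hkn
    rcases le_total y (xR (k + 1)) with h | h
    · exact (hcell k hkn y hy h).trans (vR_mono (by rw [hm]; exact le_max_right _ _))
    · exact (ih (k + 1) (by omega) (by omega) y h).trans
        (vR_mono (by rw [hm]; exact le_max_left _ _))

/-- suffix maxima up to `xR n` -/
lemma sufN (F : ℝ → ℝ) (f : ℕ → ℕ) (T n : ℕ)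
    (hT : ∀ k < n, N.fld T k = max (N.fld T (k + 1)) (f k))
    (hcell : ∀ k < n, ∀ y, xR k ≤ y → y ≤ xR (k + 1) → F y ≤ vR (f k)) :
    ∀ k < n, ∀ y, xR k ≤ y → y ≤ xR n → F y ≤ vR (N.fld T k) := by
  intro k hk
  obtain ⟨d, hd⟩ : ∃ d, d = n - (k + 1) := ⟨_, rfl⟩
  induction d generalizing k with
  | zero =>
    have h1 : k + 1 = n := by omega
    intro y hy hy2
    have hm := hT k hk
    exact (hcell k hk y hy (by rw [h1]; exact hy2)).trans
      (vR_mono (by rw [hm]; exact le_max_right _ _))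
  | succ d ih =>
    intro y hy hy2
    have hm := hT k hk
    rcases le_total y (xR (k + 1)) with h | h
    · exact (hcell k hk y hy h).trans (vR_mono (by rw [hm]; exact le_max_right _ _))
    · exact (ih (k + 1) (by omega) (by omega) y h hy2).trans
        (vR_mono (by rw [hm]; exact le_max_left _ _))

lemma mbd (f : ℕ → ℕ) (T n C : ℕ)
    (hT : ∀ k < n, N.fld T k = max (N.fld T (k + 1)) (f k))
    (hf : ∀ k < n, f k ≤ C) (htop : N.fld T n ≤ C) : ∀ k ≤ n, N.fld T k ≤ C := by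
  intro k hk
  obtain ⟨d, hd⟩ : ∃ d, d = n - k := ⟨_, rfl⟩
  induction d generalizing k with
  | zero =>
    have : k = n := by omega
    subst this; exact htop
  | succ d ih =>
    rw [hT k (by omega)]
    exact max_le (ih (k + 1) (by omega) (by omega)) (hf k (by omega))

lemma lnL_zero (v : ℕ) (h : 2 ^ 40 ≤ v) : N.lnL v = 0 := by
  unfold N.lnL
  have : Nat.ble 1099511627776 v = true := Nat.ble_eq.mpr (by norm_num at h; exact h)
  rw [this]; rfl

lemma pow_bd {y g c : ℝ} (hy : 64 ≤ y) (hg : 0 ≤ g) (hc : 0 ≤ c) : c * (64 / y) ^ g ≤ c := by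
  have h1 : (64 / y : ℝ) ≤ 1 := by rw [div_le_one (by linarith)]; exact hy
  have h0 : (0:ℝ) ≤ 64 / y := by positivity
  have := Real.rpow_le_one h0 h1 hg
  nlinarith

theorem gUF : GUF := by
  intro hF hG A B I θ hB hTB hI hC
  obtain ⟨-, hmax, -⟩ := hF
  have hx64 : xR 1152 = 64 := by
    unfold xR aR; rw [hG.2.1]; norm_num
  have vR0 : ∀ v, 0 ≤ vR v := fun v => by unfold vR; positivity
  have hc0 : B.c0 ≤ 2 ^ 40 := by
    by_contra h
    push Not at h
    have h1 := hI.gc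
    rw [lnL_zero _ h.le] at h1
    have h2 := hI.g0
    omega
  have hg0 : (0:ℝ) ≤ (B.gn : ℝ) / 32 := by positivity
  have b0 : ∀ j < 1152, N.u0F B j < 2 ^ 44 := fun j _ => by
    unfold N.u0F; rw [mn_eq]
    exact lt_of_le_of_lt (min_le_left _ _) (by norm_num)
  have b1 : ∀ j < 1152, N.u1F B j < 2 ^ 44 := fun j _ => by
    unfold N.u1F; rw [mn_eq]
    exact lt_of_le_of_lt (min_le_left _ _) (by norm_num)
  have b2 : ∀ j < 1152, (fun k => N.fld (N.tST B) k) j < 2 ^ 44 := fun j hj =>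
    lt_of_le_of_lt (hTB.s1 j hj) (by norm_num)
  have bp : ∀ j < I.kD, N.p1F B j < 2 ^ 44 := fun j _ => by
    unfold N.p1F; rw [mn_eq]
    exact lt_of_le_of_lt (min_le_left _ _) (by norm_num)
  obtain ⟨t0, s0⟩ := hmax (N.u0F B) B.c0 1152 (lt_of_le_of_lt hc0 (by norm_num)) b0
  obtain ⟨t1, s1⟩ := hmax (N.u1F B) B.c1 1152 (lt_of_le_of_lt hI.c1' (by norm_num)) b1
  obtain ⟨t2, s2⟩ := hmax (fun k => N.fld (N.tST B) k) B.c2 1152
    (lt_of_le_of_lt hI.c2' (by norm_num)) b2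
  obtain ⟨tp, sp⟩ := hmax (N.p1F B) 0 I.kD (by norm_num) bp
  have hkD : I.kD ≤ 1152 := hI.DN.trans hI.N1
  refine ⟨?_, ?_, ?_, ?_, ?_, ?_, t0, t1, t2, ?_, ?_, ?_, ?_⟩
  · refine suf (fun y => |f0 θ y|) (N.u0F B) (N.tU0 B) 1152 s0 hC.b0 ?_
    intro y hy
    rw [hx64] at hy
    rw [show N.fld (N.tU0 B) 1152 = B.c0 from t0]
    exact (hB.fp.p0 y hy).trans (pow_bd hy hg0 (vR0 _))
  · refine suf (fun y => |f1 θ y|) (N.u1F B) (N.tU1 B) 1152 s1 hC.b1 ?_
    intro y hy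
    rw [hx64] at hy
    rw [show N.fld (N.tU1 B) 1152 = B.c1 from t1]
    exact (hB.fp.p1 y hy).trans (pow_bd hy (by linarith) (vR0 _))
  · refine suf (fun y => |f2 θ y|) (fun k => N.fld (N.tST B) k) (N.tU2 B) 1152 s2 hTB.st ?_
    intro y hy
    rw [hx64] at hy
    rw [show N.fld (N.tU2 B) 1152 = B.c2 from t2]
    exact (hB.fp.p2 y hy).trans (pow_bd hy (by linarith) (vR0 _))
  · intro k hk; rw [show N.fld (N.tU0 B) k = _ from s0 k hk]; exact le_max_left _ _
  · intro k hk; rw [show N.fld (N.tU1 B) k = _ from s1 k hk]; exact le_max_left _ _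
  · intro k hk; rw [show N.fld (N.tU2 B) k = _ from s2 k hk]; exact le_max_left _ _
  · refine mbd (N.u0F B) (N.tU0 B) 1152 (2 ^ 40) s0 ?_ ?_
    · intro k _; unfold N.u0F; rw [mn_eq]; exact min_le_left _ _
    · rw [show N.fld (N.tU0 B) 1152 = B.c0 from t0]; exact hc0
  · refine mbd (N.u1F B) (N.tU1 B) 1152 (2 ^ 40) s1 ?_ ?_
    · intro k _; unfold N.u1F; rw [mn_eq]; exact min_le_left _ _
    · rw [show N.fld (N.tU1 B) 1152 = B.c1 from t1]; exact hI.c1'
  · refine mbd (fun k => N.fld (N.tST B) k) (N.tU2 B) 1152 (2 ^ 40) s2 hTB.s1 ?_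
    rw [show N.fld (N.tU2 B) 1152 = B.c2 from t2]; exact hI.c2'
  · exact sufN (fun y => f1 θ y) (N.p1F B) (N.tP1 B I.kD) I.kD sp
      (fun k hk => hC.p1 k (by omega))

end Pool.Agent.Helper69.PT
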